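import Mathlib
import Pool.Agent.Results.MP_800496_gt.KernelLarger
import Pool.Agent.Helper62.Skein

namespace Pool.Agent.Y909.SK.Bridge

open Polynomial
open Pool.Agent.Results.MP_800496_gt

/-! ### The two copies of the skein module -/

section Bridge

/-- from the pieces of `KernelLarger` to those of `Helper62.Skein` -/
def toH : KernelLarger.Piece → Pool.Agent.Helper62.Skein.Piece
  | .cup => .cup
  | .cap => .cap
  | .pos => .pos
  | .neg => .neg

/-- and back -/
def toK : Pool.Agent.Helper62.Skein.Piece → KernelLarger.Piece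
  | .cup => .cup
  | .cap => .cap
  | .pos => .pos
  | .neg => .neg

theorem toH_low (p : KernelLarger.Piece) : (toH p).low = p.low := by cases p <;> rfl
theorem toH_high (p : KernelLarger.Piece) : (toH p).high = p.high := by cases p <;> rfl
theorem toK_low (p : Pool.Agent.Helper62.Skein.Piece) : (toK p).low = p.low := by cases p <;> rfl
theorem toK_high (p : Pool.Agent.Helper62.Skein.Piece) : (toK p).high = p.high := by
  cases p <;> rfl

/-- words -/
def wH (w : List (ℕ × KernelLarger.Piece)) : List (ℕ × Pool.Agent.Helper62.Skein.Piece) :=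
  w.map fun s => (s.1, toH s.2)

/-- words -/
def wK (w : List (ℕ × Pool.Agent.Helper62.Skein.Piece)) : List (ℕ × KernelLarger.Piece) :=
  w.map fun s => (s.1, toK s.2)

theorem width_wH (w : List (ℕ × KernelLarger.Piece)) (n : ℕ) :
    Pool.Agent.Helper62.Skein.width n (wH w) = KernelLarger.width n w := by
  induction w generalizing n with
  | nil => rfl
  | cons s w ih =>
    obtain ⟨k, p⟩ := s
    have h : wH ((k, p) :: w) = (k, toH p) :: wH w := rfl
    rw [h]
    simp only [Pool.Agent.Helper62.Skein.width, KernelLarger.width, toH_low, toH_high, ih]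

theorem width_wK (w : List (ℕ × Pool.Agent.Helper62.Skein.Piece)) (n : ℕ) :
    KernelLarger.width n (wK w) = Pool.Agent.Helper62.Skein.width n w := by
  induction w generalizing n with
  | nil => rfl
  | cons s w ih =>
    obtain ⟨k, p⟩ := s
    have h : wK ((k, p) :: w) = (k, toK p) :: wK w := rfl
    rw [h]
    simp only [Pool.Agent.Helper62.Skein.width, KernelLarger.width, toK_low, toK_high, ih]

theorem wH_append (A B : List (ℕ × KernelLarger.Piece)) : wH (A ++ B) = wH A ++ wH B :=
  List.map_append

theorem wK_append (A B : List (ℕ × Pool.Agent.Helper62.Skein.Piece)) :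
    wK (A ++ B) = wK A ++ wK B :=
  List.map_append

theorem move_wH {X Y : List (ℕ × KernelLarger.Piece)} (h : KernelLarger.Move X Y) :
    Pool.Agent.Helper62.Skein.Move (wH X) (wH Y) := by
  cases h with
  | exchange k l p q hk =>
    have := Pool.Agent.Helper62.Skein.Move.exchange k l (toH p) (toH q) (by rwa [toH_high])
    rw [toH_high, toH_low] at this
    exact this
  | zigzagR k => exact .zigzagR k
  | zigzagL k => exact .zigzagL k
  | cupSlidePos k => exact .cupSlidePos k
  | cupSlideNeg k => exact .cupSlideNeg k
  | capSlidePos k => exact .capSlidePos k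
  | capSlideNeg k => exact .capSlideNeg k
  | curlPos k => exact .curlPos k
  | curlNeg k => exact .curlNeg k
  | r2PosNeg k => exact .r2PosNeg k
  | r2NegPos k => exact .r2NegPos k
  | r3 k => exact .r3 k

theorem move_wK {X Y : List (ℕ × Pool.Agent.Helper62.Skein.Piece)}
    (h : Pool.Agent.Helper62.Skein.Move X Y) : KernelLarger.Move (wK X) (wK Y) := by
  cases h with
  | exchange k l p q hk =>
    have := KernelLarger.Move.exchange k l (toK p) (toK q) (by rwa [toK_high])
    rw [toK_high, toK_low] at this
    exact this
  | zigzagR k => exact .zigzagR k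
  | zigzagL k => exact .zigzagL k
  | cupSlidePos k => exact .cupSlidePos k
  | cupSlideNeg k => exact .cupSlideNeg k
  | capSlidePos k => exact .capSlidePos k
  | capSlideNeg k => exact .capSlideNeg k
  | curlPos k => exact .curlPos k
  | curlNeg k => exact .curlNeg k
  | r2PosNeg k => exact .r2PosNeg k
  | r2NegPos k => exact .r2NegPos k
  | r3 k => exact .r3 k

/-- the map of framed links -/
def mH : KernelLarger.FramedLink → Pool.Agent.Helper62.Skein.FramedLink :=
  Quot.map (fun D => ⟨wH D.1, by rw [width_wH]; exact D.2⟩) (by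
    rintro D E ⟨A, B, X, Y, hm, hD, hE⟩
    refine ⟨wH A, wH B, wH X, wH Y, move_wH hm, ?_, ?_⟩
    · show wH D.1 = _
      rw [hD, wH_append, wH_append]
    · show wH E.1 = _
      rw [hE, wH_append, wH_append])

/-- the map of framed links -/
def mK : Pool.Agent.Helper62.Skein.FramedLink → KernelLarger.FramedLink :=
  Quot.map (fun D => ⟨wK D.1, by rw [width_wK]; exact D.2⟩) (by
    rintro D E ⟨A, B, X, Y, hm, hD, hE⟩
    refine ⟨wK A, wK B, wK X, wK Y, move_wK hm, ?_, ?_⟩
    · show wK D.1 = _
      rw [hD, wK_append, wK_append]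
    · show wK E.1 = _
      rw [hE, wK_append, wK_append])

variable (R : Type) [CommRing R]

theorem link_mH (w : List (ℕ × KernelLarger.Piece)) :
    Finsupp.lmapDomain R R mH (KernelLarger.link R w)
      = Pool.Agent.Helper62.Skein.link R (wH w) := by
  by_cases h : KernelLarger.width 0 w = some 0
  · have h' : Pool.Agent.Helper62.Skein.width 0 (wH w) = some 0 := by rw [width_wH]; exact h
    unfold KernelLarger.link Pool.Agent.Helper62.Skein.link
    rw [dif_pos h, dif_pos h', Finsupp.lmapDomain_apply]
    exact Finsupp.mapDomain_single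
  · have h' : ¬ Pool.Agent.Helper62.Skein.width 0 (wH w) = some 0 := by rw [width_wH]; exact h
    unfold KernelLarger.link Pool.Agent.Helper62.Skein.link
    rw [dif_neg h, dif_neg h', map_zero]

theorem link_mK (w : List (ℕ × Pool.Agent.Helper62.Skein.Piece)) :
    Finsupp.lmapDomain R R mK (Pool.Agent.Helper62.Skein.link R w)
      = KernelLarger.link R (wK w) := by
  by_cases h : Pool.Agent.Helper62.Skein.width 0 w = some 0
  · have h' : KernelLarger.width 0 (wK w) = some 0 := by rw [width_wK]; exact h
    unfold KernelLarger.link Pool.Agent.Helper62.Skein.link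
    rw [dif_pos h, dif_pos h', Finsupp.lmapDomain_apply]
    exact Finsupp.mapDomain_single
  · have h' : ¬ KernelLarger.width 0 (wK w) = some 0 := by rw [width_wK]; exact h
    unfold KernelLarger.link Pool.Agent.Helper62.Skein.link
    rw [dif_neg h, dif_neg h', map_zero]

variable (a b0 b3 bi : Rˣ) (b1 b2 : R)

theorem rel_mH {x : KernelLarger.FramedLink →₀ R}
    (hx : x ∈ KernelLarger.relations R a b0 b3 bi b1 b2) :
    Finsupp.lmapDomain R R mH x ∈ Pool.Agent.Helper62.Skein.relations R a b0 b3 b1 b2 (bi : R) := by
  unfold KernelLarger.relations at hx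
  induction hx using Submodule.span_induction with
  | mem x h =>
    apply Submodule.subset_span
    rcases h with ⟨A, B, n, k, hA, hB, hk, rfl⟩ | ⟨A, B, n, k, hA, hB, hk, rfl⟩
    · left
      refine ⟨wH A, wH B, n, k, by rw [width_wH]; exact hA, by rw [width_wH]; exact hB, hk, ?_⟩
      simp only [map_add, map_smul, link_mH, wH_append]
      rfl
    · right
      refine ⟨wH A, wH B, n, k, by rw [width_wH]; exact hA, by rw [width_wH]; exact hB, hk, ?_⟩
      simp only [map_sub, map_smul, link_mH, wH_append]
      rfl
  | zero => rw [map_zero]; exact zero_mem _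
  | add x y _ _ hx hy => rw [map_add]; exact add_mem hx hy
  | smul r x _ hx => rw [map_smul]; exact Submodule.smul_mem _ _ hx

theorem rel_mK {x : Pool.Agent.Helper62.Skein.FramedLink →₀ R}
    (hx : x ∈ Pool.Agent.Helper62.Skein.relations R a b0 b3 b1 b2 (bi : R)) :
    Finsupp.lmapDomain R R mK x ∈ KernelLarger.relations R a b0 b3 bi b1 b2 := by
  unfold Pool.Agent.Helper62.Skein.relations at hx
  induction hx using Submodule.span_induction with
  | mem x h =>
    apply Submodule.subset_span
    rcases h with ⟨A, B, n, k, hA, hB, hk, rfl⟩ | ⟨A, B, n, k, hA, hB, hk, rfl⟩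
    · left
      refine ⟨wK A, wK B, n, k, by rw [width_wK]; exact hA, by rw [width_wK]; exact hB, hk, ?_⟩
      simp only [map_add, map_smul, link_mK, wK_append]
      rfl
    · right
      refine ⟨wK A, wK B, n, k, by rw [width_wK]; exact hA, by rw [width_wK]; exact hB, hk, ?_⟩
      simp only [map_sub, map_smul, link_mK, wK_append]
      rfl
  | zero => rw [map_zero]; exact zero_mem _
  | add x y _ _ hx hy => rw [map_add]; exact add_mem hx hy
  | smul r x _ hx => rw [map_smul]; exact Submodule.smul_mem _ _ hx

end Bridge

end Pool.Agent.Y909.SK.Bridge
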